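import Pool.Agent.N889.WU.Stm

set_option autoImplicit false

/-!
# WU/DER: the derivation `d/dt`
-/

open Polynomial IntermediateField TensorProduct

namespace Pool.Agent.N724.WU

open Pool.Agent.N889.WU

universe u

/-- a derivation of a formally étale `k[X]`-algebra -/
theorem der_aux (k L : Type u) [Field k] [Field L] [Algebra k L] [Algebra k[X] L]
    [IsScalarTower k k[X] L] [Algebra.FormallyEtale k[X] L] :
    ∃ D : Derivation k L L, D (algebraMap k[X] L X) = 1 := by
  let δ : Derivation k k[X] L := Polynomial.mkDerivation k (1 : L)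
  let φ : L ⊗[k[X]] Ω[k[X]⁄k] →ₗ[L] L := LinearMap.liftBaseChange L δ.liftKaehlerDifferential
  let e := KaehlerDifferential.tensorKaehlerEquivOfFormallyEtale k k[X] L
  refine ⟨(φ ∘ₗ e.symm.toLinearMap).compDer (KaehlerDifferential.D k L), ?_⟩
  have h1 : e.symm (KaehlerDifferential.D k L (algebraMap k[X] L X)) =
      1 ⊗ₜ KaehlerDifferential.D k k[X] X :=
    KaehlerDifferential.tensorKaehlerEquivOfFormallyEtale_symm_D_algebraMap k k[X] L X
  have h2 : (φ ∘ₗ e.symm.toLinearMap).compDer (KaehlerDifferential.D k L)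
      (algebraMap k[X] L X) = φ (e.symm (KaehlerDifferential.D k L (algebraMap k[X] L X))) := rfl
  rw [h2, h1]
  simp only [φ, LinearMap.liftBaseChange_tmul, one_smul, Derivation.liftKaehlerDifferential_comp_D]
  simp [δ]

theorem t_DER : S_DER.{u} := by
  intro k L _ _ _ t ht
  obtain ⟨htr, hfin, hsep⟩ := ht
  letI a1 : Algebra k[X] L := (aeval t : k[X] →ₐ[k] L).toRingHom.toAlgebra
  letI a2 : Algebra k[X] k⟮t⟯ :=
    (aeval (AdjoinSimple.gen k t) : k[X] →ₐ[k] k⟮t⟯).toRingHom.toAlgebra
  have s1 : IsScalarTower k k[X] L := IsScalarTower.of_algebraMap_eq fun r => by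
    change algebraMap k L r = aeval t (C r)
    rw [aeval_C]
  have s2 : IsScalarTower k[X] k⟮t⟯ L := IsScalarTower.of_algebraMap_eq fun r => by
    change aeval t r = algebraMap k⟮t⟯ L (aeval (AdjoinSimple.gen k t) r)
    rw [← aeval_algebraMap_apply, AdjoinSimple.algebraMap_gen]
  have e0 : RatFunc k ≃ₐ[k[X]] k⟮t⟯ := by
    refine AlgEquiv.ofRingEquiv (f := (RatFunc.algEquivOfTranscendental t htr).toRingEquiv) ?_
    intro r
    change RatFunc.algEquivOfTranscendental t htr (algebraMap k[X] (RatFunc k) r) =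
      aeval (AdjoinSimple.gen k t) r
    rw [RatFunc.algEquivOfTranscendental_algebraMap]
  have f1 : Algebra.FormallyEtale k[X] (RatFunc k) :=
    Algebra.FormallyEtale.of_isLocalization (nonZeroDivisors k[X])
  have f2 : Algebra.FormallyEtale k[X] k⟮t⟯ := Algebra.FormallyEtale.of_equiv e0
  have f3 : Algebra.FormallyEtale k⟮t⟯ L := Algebra.FormallyEtale.of_isSeparable _ _
  have f4 : Algebra.FormallyEtale k[X] L := Algebra.FormallyEtale.comp k[X] k⟮t⟯ L
  obtain ⟨D, hD⟩ := der_aux k L
  refine ⟨D, ?_⟩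
  have h3 : algebraMap k[X] L X = t := by
    change aeval t X = t
    rw [aeval_X]
  rw [h3] at hD
  exact hD

end Pool.Agent.N724.WU
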